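import Pool.Agent.helper59.ZB.SpecH

set_option autoImplicit false

namespace Pool.Agent.GB

open Pool.Agent.helper58.DC Pool.Agent.DI Pool.Agent.GR Pool.Agent.OB Pool.Agent.DR Pool.Agent.FI Pool.Agent.FI3 Pool.Agent.FI4 Pool.Agent.LE Pool.Agent.BR

open Classical in
theorem HMZT_mt (hB2 : B2_stmt) {G : Type} [Group G] [Finite G] (K : Subgroup G) (η ξ : G → ℂ) (hξ : ξ ∈ IrrOn K) (c : (G → ℂ) → ℂ)
    (h : ∀ x ∈ K, η x = ∑ᶠ θ ∈ IrrOn K, c θ * θ x) : (∑ᶠ x ∈ (K : Set G), η x * ξ x⁻¹) = c ξ * Nat.card K := by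
  cases nonempty_fintype G
  obtain ⟨hfin, hB⟩ := hB2 G K
  have h1 : ∑ᶠ x ∈ (K : Set G), η x * ξ x⁻¹ = ∑ x : G, ∑ θ ∈ hfin.toFinset, c θ * (θ x * ξ x⁻¹) := by
    rw [finsum_mem_eq_finite_toFinset_sum _ (Set.toFinite _)]
    rw [← Finset.sum_subset (Finset.subset_univ (Set.toFinite (K : Set G)).toFinset)]
    · refine Finset.sum_congr rfl fun x hx => ?_
      have hxK : x ∈ K := (Set.Finite.mem_toFinset _).1 hx
      rw [h x hxK, finsum_mem_eq_finite_toFinset_sum _ hfin, Finset.sum_mul]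
      exact Finset.sum_congr rfl fun θ _ => by ring
    · intro x _ hx
      have hxK : x ∉ K := fun h' => hx ((Set.Finite.mem_toFinset _).2 h')
      refine Finset.sum_eq_zero fun θ hθ => ?_
      rw [((hB θ (hfin.mem_toFinset.1 hθ)).2.2.2.1 x hxK), zero_mul, mul_zero]
  have h2 : ∀ θ ∈ hfin.toFinset, ∑ x : G, θ x * ξ x⁻¹ = if θ = ξ then (Nat.card K : ℂ) else 0 := by
    intro θ hθ
    have h3 := (hB θ (hfin.mem_toFinset.1 hθ)).2.2.2.2 ξ hξ
    rw [finsum_eq_sum_of_fintype] at h3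
    rw [h3]
    split_ifs <;> rfl
  rw [h1, Finset.sum_comm]
  rw [Finset.sum_eq_single ξ]
  · rw [← Finset.mul_sum, h2 ξ (hfin.mem_toFinset.2 hξ), if_pos rfl]
  · intro θ hθ hne
    rw [← Finset.mul_sum, h2 θ hθ, if_neg hne, mul_zero]
  · intro hne
    exact absurd (hfin.mem_toFinset.2 hξ) hne

open Classical in
/-- the idempotent of the trivial character of `D` -/
noncomputable def HMZT_i {G : Type} [Group G] (D : Subgroup G) (x : G) : ℂ := if x ∈ D then (Nat.card D : ℂ)⁻¹ else 0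

open Classical in
theorem HMZT_sum {G : Type} [Group G] [Fintype G] (D : Subgroup G) (f : G → ℂ) :
    ∑ x : G, HMZT_i D x * f x = (Nat.card D : ℂ)⁻¹ * ∑ᶠ d ∈ (D : Set G), f d := by
  rw [finsum_mem_eq_finite_toFinset_sum _ (Set.toFinite _), Finset.mul_sum]
  have h1 : ∀ x : G, HMZT_i D x * f x = if x ∈ (Set.toFinite (D : Set G)).toFinset then (Nat.card D : ℂ)⁻¹ * f x else 0 := by
    intro x
    unfold HMZT_i
    by_cases hx : x ∈ D
    · rw [if_pos hx, if_pos ((Set.Finite.mem_toFinset _).2 hx)]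
    · rw [if_neg hx, if_neg (fun h => hx ((Set.Finite.mem_toFinset _).1 h)), zero_mul]
  rw [Finset.sum_congr rfl fun x _ => h1 x, ← Finset.sum_filter]
  refine Finset.sum_congr ?_ fun _ _ => rfl
  ext x
  simp

theorem HMZT (hQEV : QEV_stmt) (hB2 : B2_stmt) : HMZT_stmt := by
  intro G _ _ D θ₁ hθ ψ hψ
  classical
  cases nonempty_fintype G
  have hD0 : (Nat.card D : ℂ) ≠ 0 := by exact_mod_cast (Nat.card_pos (α := D)).ne'
  have hC0 : (Nat.card (cz D) : ℂ) ≠ 0 := by exact_mod_cast (Nat.card_pos (α := cz D)).ne'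
  have hidem : cv (HMZT_i D) (HMZT_i D) = HMZT_i D := by
    funext g
    unfold cv
    rw [finsum_eq_sum_of_fintype, HMZT_sum D (fun x => HMZT_i D (x⁻¹ * g))]
    by_cases hg : g ∈ D
    · have h1 : ∀ d ∈ (D : Set G), HMZT_i D (d⁻¹ * g) = (Nat.card D : ℂ)⁻¹ := by
        intro d hd
        unfold HMZT_i
        rw [if_pos (D.mul_mem (D.inv_mem hd) hg)]
      rw [finsum_mem_congr rfl h1, finsum_mem_eq_finite_toFinset_sum _ (Set.toFinite _), Finset.sum_const,
        ← Set.ncard_eq_toFinset_card (D : Set G) (Set.toFinite _), nsmul_eq_mul]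
      have h2 : ((D : Set G).ncard : ℂ) = (Nat.card D : ℂ) := by rw [← Nat.card_coe_set_eq]; rfl
      rw [h2, mul_inv_cancel₀ hD0, mul_one]
      unfold HMZT_i
      rw [if_pos hg]
    · have h1 : ∀ d ∈ (D : Set G), HMZT_i D (d⁻¹ * g) = 0 := by
        intro d hd
        unfold HMZT_i
        refine if_neg fun h => hg ?_
        have h3 := D.mul_mem hd h
        rwa [mul_inv_cancel_left] at h3
      rw [finsum_mem_congr rfl h1, finsum_mem_zero, mul_zero]
      unfold HMZT_i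
      rw [if_neg hg]
  have hinv : Inv (cz D) (HMZT_i D) := by
    intro s hs x
    have hs' := Subgroup.mem_centralizer_iff.1 hs
    unfold HMZT_i
    have h1 : s * x * s⁻¹ ∈ D ↔ x ∈ D := by
      constructor
      · intro h
        have h2 := hs' _ h
        have h3 : s * x * s⁻¹ = x := by
          have h4 : s * (s * x * s⁻¹) = s * x := by rw [← h2]; group
          exact mul_left_cancel h4
        rwa [h3] at h
      · intro h
        have h2 := hs' _ h
        rw [← h2, mul_inv_cancel_right]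
        exact h
    by_cases hx : x ∈ D
    · rw [if_pos hx, if_pos (h1.2 hx)]
    · rw [if_neg hx, if_neg (fun h => hx (h1.1 h))]
  obtain ⟨m, hm⟩ := hQEV G ⊤ (cz D) le_top (HMZT_i D) (fun x hx => absurd (Subgroup.mem_top x) hx) hidem hinv ψ hψ
  refine ⟨m θ₁, ?_⟩
  have h1 := HMZT_mt hB2 (cz D) (ev ψ (HMZT_i D)) θ₁ hθ (fun η => (m η : ℂ)) hm
  have h2 : ∀ c ∈ (cz D : Set G), (∑ᶠ d ∈ (D : Set G), ψ (d * c)) * θ₁ c⁻¹ = (Nat.card D : ℂ) * (ev ψ (HMZT_i D) c * θ₁ c⁻¹) := by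
    intro c hc
    have hc' := Subgroup.mem_centralizer_iff.1 hc
    have h3 : ev ψ (HMZT_i D) c = (Nat.card D : ℂ)⁻¹ * ∑ᶠ d ∈ (D : Set G), ψ (d * c) := by
      unfold ev
      rw [finsum_eq_sum_of_fintype, HMZT_sum D (fun x => ψ (c * x))]
      congr 1
      refine finsum_mem_congr rfl fun d hd => ?_
      rw [hc' d hd]
    rw [h3, ← mul_assoc, ← mul_assoc, mul_inv_cancel₀ hD0, one_mul]
  have h3 : ∑ᶠ c ∈ (cz D : Set G), (Nat.card D : ℂ) * (ev ψ (HMZT_i D) c * θ₁ c⁻¹) =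
      (Nat.card D : ℂ) * ∑ᶠ c ∈ (cz D : Set G), ev ψ (HMZT_i D) c * θ₁ c⁻¹ := by
    rw [finsum_mem_eq_finite_toFinset_sum _ (Set.toFinite _), finsum_mem_eq_finite_toFinset_sum _ (Set.toFinite _), Finset.mul_sum]
  unfold mzT
  rw [finsum_mem_congr rfl h2, h3, h1]
  field_simp

end Pool.Agent.GB
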