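import Pool.Agent.helper59.ZB.SpecH

set_option autoImplicit false

namespace Pool.Agent.GB

open Pool.Agent.helper58.DC Pool.Agent.DI Pool.Agent.GR Pool.Agent.OB Pool.Agent.DR Pool.Agent.FI Pool.Agent.FI3 Pool.Agent.FI4 Pool.Agent.LE Pool.Agent.BR

/-- orbit and stabiliser for the conjugation by `T` -/
theorem HWTT_card {G : Type} [Group G] [Finite G] (T : Subgroup G) (u : G) :
    Nat.card {u' : G | ∃ t ∈ T, t * u * t⁻¹ = u'} * Nat.card (Cz T u) = Nat.card T := by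
  let act : MulAction T G := MulAction.compHom G ((MulAut.conj : G →* MulAut G).comp T.subtype)
  have hsm : ∀ (t : T) (x : G), act.toSMul.smul t x = (t : G) * x * (t : G)⁻¹ := fun t x => rfl
  have h1 := Nat.card_congr (@MulAction.orbitProdStabilizerEquivGroup T G _ act u)
  rw [Nat.card_prod] at h1
  have h2 : @MulAction.orbit T G act.toSMul u = {u' : G | ∃ t ∈ T, t * u * t⁻¹ = u'} := by
    ext x
    constructor
    · rintro ⟨t, ht⟩
      exact ⟨(t : G), t.2, ht⟩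
    · rintro ⟨t, ht, hx⟩
      exact ⟨⟨t, ht⟩, hx⟩
  have hle : Cz T u ≤ T := inf_le_left
  have h3 : @MulAction.stabilizer T G _ act u = (Cz T u).subgroupOf T := by
    ext t
    rw [Subgroup.mem_subgroupOf, mem_Cz]
    constructor
    · intro h
      refine ⟨t.2, ?_⟩
      have h4 : (t : G) * u * (t : G)⁻¹ = u := h
      calc u * (t : G) = ((t : G) * u * (t : G)⁻¹) * (t : G) := by rw [h4]
        _ = (t : G) * u := by rw [inv_mul_cancel_right]
    · rintro ⟨-, h⟩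
      show (t : G) * u * (t : G)⁻¹ = u
      rw [← h, mul_inv_cancel_right]
  rw [h2, h3] at h1
  rw [← h1, Nat.card_congr (Subgroup.subgroupOfEquivOfLe hle).toEquiv]

theorem HWTT_orb {G : Type} [Group G] (T : Subgroup G) (u t : G) (ht : t ∈ T) :
    {u' : G | ∃ s ∈ T, s * (t * u * t⁻¹) * s⁻¹ = u'} = {u' : G | ∃ s ∈ T, s * u * s⁻¹ = u'} := by
  ext x
  constructor
  · rintro ⟨s, hs, hx⟩
    refine ⟨s * t, T.mul_mem hs ht, ?_⟩
    rw [← hx]
    simp only [_root_.mul_inv_rev, mul_assoc]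
  · rintro ⟨s, hs, hx⟩
    refine ⟨s * t⁻¹, T.mul_mem hs (T.inv_mem ht), ?_⟩
    rw [← hx]
    simp only [_root_.mul_inv_rev, inv_inv, mul_assoc, inv_mul_cancel_left]

theorem HWTT_pos {G : Type} [Group G] [Finite G] (T : Subgroup G) (u : G) :
    Nat.card {u' : G | ∃ t ∈ T, t * u * t⁻¹ = u'} ≠ 0 := by
  have : Nonempty {u' : G | ∃ t ∈ T, t * u * t⁻¹ = u'} :=
    ⟨⟨u, 1, T.one_mem, by rw [one_mul, inv_one, mul_one]⟩⟩
  exact Nat.card_pos.ne'

theorem HWTT_conj {G : Type} [Group G] [Finite G] (T : Subgroup G) (u t : G) (ht : t ∈ T) :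
    Nat.card (Cz T (t * u * t⁻¹)) = Nat.card (Cz T u) := by
  have h1 := HWTT_card T (t * u * t⁻¹)
  rw [HWTT_orb T u t ht, ← HWTT_card T u] at h1
  exact Nat.eq_of_mul_eq_mul_left (Nat.pos_of_ne_zero (HWTT_pos T u)) h1

theorem HWTT : HWTT_stmt := by
  intro M G _ _ D T θ u hu
  obtain ⟨L, hL⟩ : ∃ L : Subgroup G, L = TT M D θ := ⟨_, rfl⟩
  have hC0' : Nat.card (L ⊓ cz T : Subgroup G) ≠ 0 := (Nat.card_pos (α := (L ⊓ cz T : Subgroup G))).ne'
  have hC0 : (Nat.card (L ⊓ cz T : Subgroup G) : ℂ) ≠ 0 := by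
    exact_mod_cast hC0'
  have hidx : Nat.card (L ⊓ cz T : Subgroup G) * iT M D T θ = Nat.card L := by
    unfold iT
    rw [← hL, ← Subgroup.inf_relIndex_right, inf_comm (cz T) L]
    have h3 := Subgroup.relIndex_mul_relIndex (⊥ : Subgroup G) (L ⊓ cz T) L bot_le inf_le_left
    rw [Subgroup.relIndex_bot_left, Subgroup.relIndex_bot_left] at h3
    exact h3
  refine ⟨?_, ?_, ?_⟩
  · have h1 : ∀ u' ∈ {u' : G | ∃ t ∈ TT M D θ, t * u * t⁻¹ = u'}, ciT M D T θ u' = ciT M D T θ u := by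
      rintro u' ⟨t, ht, rfl⟩
      unfold ciT
      rw [HWTT_conj _ u t ht]
    rw [finsum_mem_congr rfl h1]
    obtain ⟨A, hA⟩ : ∃ A : Set G, A = {u' : G | ∃ t ∈ TT M D θ, t * u * t⁻¹ = u'} := ⟨_, rfl⟩
    rw [← hA, finsum_mem_eq_finite_toFinset_sum _ (Set.toFinite A), Finset.sum_const,
      ← Set.ncard_eq_toFinset_card A (Set.toFinite A), nsmul_eq_mul]
    have h2 : A.ncard * Nat.card (Cz L u) = Nat.card L := by
      have h3 := HWTT_card L u
      rw [hL, ← hA] at h3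
      rw [hL]
      exact h3
    unfold ciT
    rw [← hL, ← mul_div_assoc, div_eq_iff hC0]
    have h4 : (A.ncard : ℂ) * (Nat.card (Cz L u) : ℂ) = (Nat.card L : ℂ) := by
      exact_mod_cast h2
    have h5 : (Nat.card (L ⊓ cz T : Subgroup G) : ℂ) * (iT M D T θ : ℂ) = (Nat.card L : ℂ) := by
      exact_mod_cast hidx
    rw [h4, ← h5, mul_comm]
  · refine ⟨(Nat.card (Cz L u) : ℝ) / Nat.card (L ⊓ cz T : Subgroup G), ?_, ?_⟩
    · have hle : L ⊓ cz T ≤ Cz L u := by
        rintro c ⟨hc1, hc2⟩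
        rw [mem_Cz]
        exact ⟨hc1, Subgroup.mem_centralizer_iff.1 hc2 u hu⟩
      have h1 : Nat.card (L ⊓ cz T : Subgroup G) ≤ Nat.card (Cz L u) :=
        Nat.card_le_card_of_injective (Subgroup.inclusion hle) (Subgroup.inclusion_injective hle)
      have h2 : (0 : ℝ) < Nat.card (L ⊓ cz T : Subgroup G) := by
        exact_mod_cast Nat.pos_of_ne_zero hC0'
      rw [le_div_iff₀ h2, one_mul]
      exact_mod_cast h1
    · unfold ciT
      rw [← hL]
      push_cast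
      rfl
  · apply Nat.pos_of_ne_zero
    intro h0
    rw [h0, mul_zero] at hidx
    exact (Nat.card_pos (α := L)).ne' hidx.symm

end Pool.Agent.GB
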