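import Pool.Agent.helper59.ZB.SpecH

set_option autoImplicit false

namespace Pool.Agent.GB

open Pool.Agent.helper58.DC Pool.Agent.DI Pool.Agent.GR Pool.Agent.OB Pool.Agent.DR Pool.Agent.FI Pool.Agent.FI3 Pool.Agent.FI4 Pool.Agent.LE Pool.Agent.BR

theorem PRW (hHBW : HBW_stmt) (hHWTT : HWTT_stmt) (hHPTT : HPTT_stmt) (hHPOT : HPOT_stmt) (hB2 : B2_stmt) : ∀ p : ℕ, PROP p := by
  intro p M hM G _ _ D T x θ χ hZ w hw ψ₀ hψ₀
  classical
  have hfin : (Bl M (⊤ : Subgroup G) θ).Finite := (hB2 G ⊤).1.subset fun ψ hψ => hψ.1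
  have : Fintype (Bl M (⊤ : Subgroup G) θ) := hfin.fintype
  have : Fintype T := Fintype.ofFinite T
  have hKT : ∀ t ∈ TT M D θ, ∀ u ∈ T, t * u * t⁻¹ ∈ T := fun t ht u hu => hZ.tnz t ht.1 u hu
  have hW := fun u : T => hHWTT M G D T θ u.1 u.2
  choose c hc1 hc using fun u : T => (hW u).2.1
  have hI0 : 0 < iT M D T θ := (hW 1).2.2
  have hI : (0 : ℝ) < iT M D T θ := by exact_mod_cast hI0
  have hIC : ((iT M D T θ : ℝ) : ℂ) ≠ 0 := by exact_mod_cast hI.ne'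
  have key := hHBW (Bl M (⊤ : Subgroup G) θ) T (fun u u' => ∃ t ∈ TT M D θ, t * (u : G) * t⁻¹ = u') (fun u => c u / iT M D T θ)
    (fun u ψ => PP p M θ ψ ψ₀ u) ⟨ψ₀, hψ₀⟩ (fun u => div_nonneg (by linarith [hc1 u]) hI.le) ?_ ?_ ?_ ?_
    (fun u => ciT M D T θ u * w u / iT M D T θ) ?_
  · rw [← finsum_set_coe_eq_finsum_mem, finsum_eq_sum_of_fintype]
    have h3 : ∀ ψ : Bl M (⊤ : Subgroup G) θ, ‖∑ᶠ u ∈ (T : Set G), ciT M D T θ u * w u * PP p M θ ψ ψ₀ u‖ ^ 2 =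
        (iT M D T θ : ℝ) ^ 2 * ‖∑ u : T, ciT M D T θ u * w u / iT M D T θ * PP p M θ ψ ψ₀ u‖ ^ 2 := by
      intro ψ
      have h4 : ∑ᶠ u ∈ (T : Set G), ciT M D T θ u * w u * PP p M θ ψ ψ₀ u =
          ((iT M D T θ : ℝ) : ℂ) * ∑ u : T, ciT M D T θ u * w u / iT M D T θ * PP p M θ ψ ψ₀ u := by
        rw [← finsum_set_coe_eq_finsum_mem, finsum_eq_sum_of_fintype, Finset.mul_sum]
        refine Finset.sum_congr rfl fun u _ => ?_
        rw [Complex.ofReal_natCast] at hIC ⊢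
        field_simp
      rw [h4, norm_mul, Complex.norm_real, Real.norm_of_nonneg hI.le, mul_pow]
    rw [Finset.sum_congr rfl fun ψ _ => h3 ψ, ← Finset.mul_sum]
    calc (iT M D T θ : ℝ) ^ 2 * ∑ ψ : Bl M (⊤ : Subgroup G) θ, ‖∑ u : T, ciT M D T θ u * w u / iT M D T θ * PP p M θ ψ ψ₀ u‖ ^ 2
        ≤ (iT M D T θ : ℝ) ^ 2 * 1 := mul_le_mul_of_nonneg_left key (by positivity)
      _ = _ := mul_one _
  · -- the weights
    intro u
    have h1 := (hW u).1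
    have h2 : {u' : G | ∃ t ∈ TT M D θ, t * (u : G) * t⁻¹ = u'} = (Subtype.val : T → G) '' {u' : T | ∃ t ∈ TT M D θ, t * (u : G) * t⁻¹ = u'} := by
      ext g
      constructor
      · rintro ⟨t, ht, rfl⟩
        exact ⟨⟨_, hKT t ht u u.2⟩, ⟨t, ht, rfl⟩, rfl⟩
      · rintro ⟨u', ⟨t, ht, h⟩, rfl⟩
        exact ⟨t, ht, h⟩
    rw [h2, finsum_mem_image Subtype.val_injective.injOn, finsum_mem_eq_finite_toFinset_sum _ (Set.toFinite _)] at h1
    rw [finsum_mem_eq_finite_toFinset_sum _ (Set.toFinite _), ← Finset.sum_div]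
    have h3 : ((∑ u' ∈ (Set.toFinite {u' : T | ∃ t ∈ TT M D θ, t * (u : G) * t⁻¹ = u'}).toFinset, c u' : ℝ) : ℂ) = ((iT M D T θ : ℝ) : ℂ) := by
      push_cast
      rw [← h1]
      exact Finset.sum_congr rfl fun u' _ => (hc u').symm
    rw [Complex.ofReal_injective h3, div_self hI.ne']
  · rintro u u' ⟨t, ht, h⟩
    funext ψ
    show PP p M θ ψ ψ₀ u' = PP p M θ ψ ψ₀ u
    rw [← h]
    exact hHPTT p M hM G D T x θ χ hZ u u.2 t ht ψ ψ.2.1 ψ₀ hψ₀.1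
  · intro u u' h
    have h1 := (hHPOT p M hM G D T x θ χ hZ ψ₀ hψ₀ u u.2).2 u' u'.2 (fun t ht h2 => h ⟨t, ht, h2⟩)
    rw [← finsum_set_coe_eq_finsum_mem, finsum_eq_sum_of_fintype] at h1
    exact h1
  · intro u
    have h1 := (hHPOT p M hM G D T x θ χ hZ ψ₀ hψ₀ u u.2).1
    rw [← finsum_set_coe_eq_finsum_mem, finsum_eq_sum_of_fintype] at h1
    exact h1
  · intro u
    rw [hc u, norm_div, norm_mul, Complex.norm_real, Complex.norm_natCast, Real.norm_of_nonneg (by linarith [hc1 u])]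
    exact div_le_div_of_nonneg_right (mul_le_of_le_one_right (by linarith [hc1 u]) (hw u)) hI.le

end Pool.Agent.GB
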