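import Pool.Agent.helper58.ZB.SpecN

set_option autoImplicit false

namespace Pool.Agent.GB

open Pool.Agent.helper58.DC Pool.Agent.DI Pool.Agent.GR Pool.Agent.OB Pool.Agent.DR Pool.Agent.FI Pool.Agent.FI3 Pool.Agent.FI4 Pool.Agent.LE Pool.Agent.BR

open Classical in
/-- the sum over the characters which are trivial on `C` -/
theorem CTL_sum (hPER : PER_stmt) (D : Type) [CommGroup D] [Fintype D] [Fintype (D →* ℂˣ)] (C : Subgroup D) (c : D → ℂ)
    (n : (D →* ℂˣ) → ℤ) (hn : ∀ l : D →* ℂˣ, ∑ u, c u * (l u : ℂ) = (n l : ℂ)) :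
    ((∑ l ∈ Finset.univ.filter (fun l : D →* ℂˣ => ∀ u ∈ C, l u = 1), n l : ℤ) : ℂ) =
      (C.index : ℂ) * ∑ u ∈ Finset.univ.filter (fun u => u ∈ C), c u := by
  obtain ⟨h1, h2⟩ := hPER D C
  obtain ⟨F, hF⟩ : ∃ F, F = Finset.univ.filter (fun l : D →* ℂˣ => ∀ u ∈ C, l u = 1) := ⟨_, rfl⟩
  have hmem : ∀ l : D →* ℂˣ, l ∈ F ↔ ∀ u ∈ C, l u = 1 := by
    intro l
    rw [hF]
    simp
  have hcard : F.card = C.index := by
    rw [← h1, Nat.card_eq_fintype_card, Fintype.card_subtype, hF]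
  rw [← hF]
  have hin : ∀ u : D, ∑ l ∈ F, ((l u : ℂˣ) : ℂ) = if u ∈ C then (C.index : ℂ) else 0 := by
    intro u
    by_cases hu : u ∈ C
    · rw [if_pos hu, ← hcard]
      have : ∀ l ∈ F, ((l u : ℂˣ) : ℂ) = 1 := by
        intro l hl
        rw [(hmem l).1 hl u hu]
        rfl
      rw [Finset.sum_congr rfl this, Finset.sum_const, nsmul_eq_mul, mul_one]
    · rw [if_neg hu]
      obtain ⟨w, hw1, hw2⟩ := h2 u hu
      have hbij : ∑ l ∈ F, ((l u : ℂˣ) : ℂ) = ∑ l ∈ F, (((w * l) u : ℂˣ) : ℂ) := by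
        refine (Finset.sum_bij' (fun l _ => w * l) (fun l _ => w⁻¹ * l) ?_ ?_ ?_ ?_ ?_).symm
        · intro l hl
          rw [hmem] at hl ⊢
          intro v hv
          rw [MonoidHom.mul_apply, hw1 v hv, hl v hv, one_mul]
        · intro l hl
          rw [hmem] at hl ⊢
          intro v hv
          rw [MonoidHom.mul_apply, MonoidHom.inv_apply, hw1 v hv, hl v hv, inv_one, one_mul]
        · intro l _
          exact inv_mul_cancel_left w l
        · intro l _
          exact mul_inv_cancel_left w l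
        · intro l _
          rfl
      have h3 : ∑ l ∈ F, (((w * l) u : ℂˣ) : ℂ) = (w u : ℂ) * ∑ l ∈ F, ((l u : ℂˣ) : ℂ) := by
        rw [Finset.mul_sum]
        refine Finset.sum_congr rfl fun l _ => ?_
        rw [MonoidHom.mul_apply, Units.val_mul]
      rw [h3] at hbij
      have h4 : ((w u : ℂˣ) : ℂ) - 1 ≠ 0 := by
        intro h
        apply hw2
        apply Units.ext
        rw [Units.val_one]
        exact sub_eq_zero.1 h
      have h5 : (((w u : ℂˣ) : ℂ) - 1) * ∑ l ∈ F, ((l u : ℂˣ) : ℂ) = 0 := by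
        rw [sub_mul, one_mul, ← hbij, sub_self]
      exact (mul_eq_zero.1 h5).resolve_left h4
  push_cast
  calc ∑ l ∈ F, (n l : ℂ) = ∑ l ∈ F, ∑ u, c u * (l u : ℂ) := Finset.sum_congr rfl fun l _ => (hn l).symm
    _ = ∑ u, ∑ l ∈ F, c u * (l u : ℂ) := Finset.sum_comm
    _ = ∑ u, c u * (if u ∈ C then (C.index : ℂ) else 0) := by
        refine Finset.sum_congr rfl fun u _ => ?_
        rw [← Finset.mul_sum, hin]
    _ = ∑ u, (if u ∈ C then (C.index : ℂ) * c u else 0) := by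
        refine Finset.sum_congr rfl fun u _ => ?_
        split_ifs
        · ring
        · ring
    _ = _ := by
        rw [← Finset.sum_filter, Finset.mul_sum]

theorem CTL (hORB2 : ORB2_stmt) (hPER : PER_stmt) : CTL_stmt := by
  classical
  intro p hp h D _ _ hD K hK c n hn hc N hN hnd
  have hfD : Fintype D := Fintype.ofFinite D
  have hfl : Finite (D →* ℂˣ) := by
    have h1 := (hPER D ⊥).1
    have h2 : Nat.card {w : D →* ℂˣ // ∀ u ∈ (⊥ : Subgroup D), w u = 1} ≠ 0 := by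
      rw [h1, Subgroup.index_bot]
      exact Nat.card_pos.ne'
    have h3 : Finite {w : D →* ℂˣ // ∀ u ∈ (⊥ : Subgroup D), w u = 1} := Nat.finite_of_card_ne_zero h2
    have e : (D →* ℂˣ) ≃ {w : D →* ℂˣ // ∀ u ∈ (⊥ : Subgroup D), w u = 1} :=
      { toFun := fun w => ⟨w, fun u hu => by rw [Subgroup.mem_bot.1 hu, map_one]⟩
        invFun := fun w => w.1
        left_inv := fun _ => rfl
        right_inv := fun _ => rfl }
    exact Finite.of_equiv _ e.symm
  have hfL : Fintype (D →* ℂˣ) := Fintype.ofFinite _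
  have hn' : ∀ l : D →* ℂˣ, ∑ u, c u * (l u : ℂ) = (n l : ℂ) := by
    intro l
    rw [← hn l, finsum_eq_sum_of_fintype]
  have hpow : ∀ (l : D →* ℂˣ) (m : ℕ) (u : D), (l ^ m) u = l (u ^ m) := by
    intro l m u
    rw [MonoidHom.pow_apply, map_pow]
  -- the group of characters is a `p`-group
  have hΛ : IsPGroup p (D →* ℂˣ) := by
    obtain ⟨k, hk⟩ := (haveI : Fact p.Prime := ⟨hp⟩; IsPGroup.iff_card.1 hD)
    intro l
    refine ⟨k, MonoidHom.ext fun u => ?_⟩
    rw [hpow, ← hk, pow_card_eq_one', map_one]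
    rfl
  -- trivial on `K`
  have htr : ∀ l : D →* ℂˣ, l ^ p ^ (h + bb p) = 1 ↔ ∀ u ∈ K, l u = 1 := by
    intro l
    constructor
    · intro hl u hu
      obtain ⟨d, rfl⟩ := (hK u).1 hu
      rw [← hpow, hl]
      rfl
    · intro hl
      refine MonoidHom.ext fun u => ?_
      rw [hpow]
      exact hl _ ((hK _).2 ⟨u, rfl⟩)
  -- the invariance of `n`
  have hcop : (Nat.card D).Coprime (1 + p ^ bb p) := by
    obtain ⟨k, hk⟩ := (haveI : Fact p.Prime := ⟨hp⟩; IsPGroup.iff_card.1 hD)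
    rw [hk]
    refine Nat.Coprime.pow_left k ?_
    have hb : bb p ≠ 0 := by
      unfold bb
      split_ifs <;> norm_num
    obtain ⟨b, hb2⟩ := Nat.exists_eq_succ_of_ne_zero hb
    rw [hb2, pow_succ', Nat.coprime_add_mul_left_right]
    exact Nat.coprime_one_right p
  have hinv : ∀ l : D →* ℂˣ, n (l ^ (1 + p ^ bb p)) = n l := by
    intro l
    have e : ((n (l ^ (1 + p ^ bb p)) : ℤ) : ℂ) = ((n l : ℤ) : ℂ) := by
      rw [← hn', ← hn']
      have h1 : ∀ u : D, c u * (((l ^ (1 + p ^ bb p)) u : ℂˣ) : ℂ) = c (powCoprime hcop u) * ((l (powCoprime hcop u) : ℂˣ) : ℂ) := by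
        intro u
        rw [powCoprime_apply, hpow, hc]
      rw [Finset.sum_congr rfl fun u _ => h1 u]
      exact Equiv.sum_comp (powCoprime hcop) (fun u => c u * ((l u : ℂˣ) : ℂ))
    exact_mod_cast e
  have hdiv := hORB2 p hp h (D →* ℂˣ) hΛ n hinv
  have hT := CTL_sum hPER D ⊥ c n hn'
  have hT1 : Finset.univ.filter (fun l : D →* ℂˣ => ∀ u ∈ (⊥ : Subgroup D), l u = 1) = Finset.univ := by
    refine Finset.filter_true_of_mem fun l _ u hu => ?_
    rw [Subgroup.mem_bot.1 hu, map_one]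
  have hT2 : Finset.univ.filter (fun u : D => u ∈ (⊥ : Subgroup D)) = {1} := by
    ext u
    simp [Subgroup.mem_bot]
  rw [hT1, hT2, Finset.sum_singleton, Subgroup.index_bot, hN] at hT
  have hT3 : ∑ l, n l = N := by exact_mod_cast hT
  have hsplit : ∑ l ∈ Finset.univ.filter (fun l : D →* ℂˣ => ∀ u ∈ K, l u = 1), n l +
      ∑ l ∈ Finset.univ.filter (fun l : D →* ℂˣ => ¬ ∀ u ∈ K, l u = 1), n l = ∑ l, n l :=
    Finset.sum_filter_add_sum_filter_not _ _ _
  have hrest : ∑ᶠ l ∈ {l : D →* ℂˣ | l ^ p ^ (h + bb p) ≠ 1}, n l =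
      ∑ l ∈ Finset.univ.filter (fun l : D →* ℂˣ => ¬ ∀ u ∈ K, l u = 1), n l := by
    rw [finsum_mem_eq_finite_toFinset_sum _ (Set.toFinite _)]
    refine Finset.sum_congr ?_ fun _ _ => rfl
    ext l
    rw [Set.Finite.mem_toFinset, Finset.mem_filter]
    constructor
    · intro hl
      exact ⟨Finset.mem_univ _, fun h1 => hl ((htr l).2 h1)⟩
    · rintro ⟨-, hl⟩ h1
      exact hl ((htr l).1 h1)
  rw [hrest] at hdiv
  rw [hT3] at hsplit
  by_contra hcon
  push Not at hcon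
  have h0 : ∑ l ∈ Finset.univ.filter (fun l : D →* ℂˣ => ∀ u ∈ K, l u = 1), n l = 0 := by
    refine Finset.sum_eq_zero fun l hl => ?_
    exact hcon l (Finset.mem_filter.1 hl).2
  rw [h0, zero_add] at hsplit
  rw [hsplit] at hdiv
  exact hnd hdiv

end Pool.Agent.GB
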