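import Pool.Agent.helper58.ZB.SpecN

set_option autoImplicit false

namespace Pool.Agent.GB

open Pool.Agent.helper58.DC Pool.Agent.DI Pool.Agent.GR Pool.Agent.OB Pool.Agent.DR Pool.Agent.FI Pool.Agent.FI3 Pool.Agent.FI4 Pool.Agent.LE Pool.Agent.BR

theorem LXP_reg {p m : ℕ} {G : Type} [Group G] [Finite G] (hm : GmB p (Nat.card G) m) (v : G) (hv : PReg p v) :
    v ^ m = v := by
  have h1 := hm.reg (orderOf v) (orderOf_dvd_natCard v) hv
  have h2 := (pow_eq_pow_iff_modEq (x := v)).2 h1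
  rwa [pow_one] at h2

theorem LXP_EE {p m : ℕ} {G : Type} [Group G] [Finite G] (hm : GmB p (Nat.card G) m) (ψ ψ' : G → ℂ) :
    EE p (⊤ : Subgroup G) (fun g => ψ (g ^ m)) ψ' = EE p (⊤ : Subgroup G) ψ ψ' := by
  unfold EE
  congr 1
  refine finsum_mem_congr rfl fun v hv => ?_
  show ψ (v ^ m) * ψ' v⁻¹ = ψ v * ψ' v⁻¹
  rw [LXP_reg hm v hv.2]

theorem LXP_card (p : ℕ) (hp : p.Prime) (G : Type) [Group G] [Finite G] :
    ∃ a n' : ℕ, Nat.card G = p ^ a * n' ∧ ¬ p ∣ n' := by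
  obtain ⟨a, n', h1, h2⟩ := Nat.exists_eq_pow_mul_and_not_dvd (n := Nat.card G) Nat.card_pos.ne' p hp.ne_one
  exact ⟨a, n', h2, h1⟩

theorem LXP_qreg {p q : ℕ} (hp : p.Prime) {G : Type} [Group G] [Finite G] (hq : ∀ y : G, PEl p y → y ^ q = 1) (g : G) :
    PReg p (g ^ q) := by
  obtain ⟨a, n', h1, h2⟩ := LXP_card p hp G
  intro h3
  have h4 : PEl p (g ^ n') := by
    refine ⟨a, ?_⟩
    rw [← pow_mul, mul_comm, ← h1, pow_card_eq_one']
  have h5 := hq _ h4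
  rw [← pow_mul, mul_comm, pow_mul] at h5
  exact h2 (h3.trans (orderOf_dvd_of_pow_eq_one h5))

theorem LXP (hZT4 : ZT4_stmt) (hQEI : QEI_stmt) : LXP_stmt := by
  intro p M hS G _ _ S hBC m hm
  have hp : p.Prime := hS.pr
  cases nonempty_fintype G
  refine ⟨fun ψ hψ => ?_, fun ψ ψ' => LXP_EE hm ψ ψ', fun q hq1 hq2 ψ ψ' => ?_, ?_⟩
  · have h1 : (fun g => ψ (g ^ m)) ∈ IrrOn (⊤ : Subgroup G) := hZT4 G m hm.cop ⊤ ψ (hBC.sub hψ)
    by_contra h2
    obtain ⟨-, h3, -, h4⟩ := hQEI p M hS G ⊤ S hBC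
    have h5 := (h3 ψ hψ _ h1 h2).2
    rw [LXP_EE hm] at h5
    obtain ⟨r, hr, h6⟩ := h4 ψ (hBC.sub hψ)
    rw [h6] at h5
    have h7 : r = 0 := by exact_mod_cast h5
    linarith
  · rw [finsum_eq_sum_of_fintype, finsum_eq_sum_of_fintype]
    have hcop : (Nat.card G).Coprime m := hm.cop.symm
    rw [← Equiv.sum_comp (powCoprime hcop) (fun g => ψ' (g ^ q) * ψ g⁻¹)]
    refine Finset.sum_congr rfl fun g _ => ?_
    rw [powCoprime_apply]
    have h1 : (g ^ m) ^ q = g ^ q := by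
      rw [← pow_mul, mul_comm, pow_mul]
      exact LXP_reg hm _ (LXP_qreg hp hq2 g)
    rw [h1, inv_pow]
  · obtain ⟨a, n', h1, h2⟩ := LXP_card p hp G
    refine ⟨a, fun g => ?_⟩
    have h3 : m ^ p ^ a ≡ 1 [MOD n'] := by
      have h4 := (hm.reg n' ⟨p ^ a, by rw [h1, mul_comm]⟩ h2).pow (p ^ a)
      rwa [one_pow] at h4
    have h4 : m ^ p ^ a ≡ 1 [MOD p ^ a] := by
      rcases Nat.eq_zero_or_pos a with ha | ha
      · rw [ha, pow_zero]
        exact Nat.modEq_one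
      · have h5 : m ≡ 1 [MOD p] := hm.one ⟨p ^ (a - 1) * n', by
          rw [h1, ← mul_assoc, ← pow_succ']
          congr 2
          omega⟩
        have h6 : ((p : ℕ) : ℤ) ∣ (m : ℤ) - 1 := by
          have h7 := (Nat.modEq_iff_dvd.1 h5.symm)
          push_cast at h7
          exact h7
        have h8 := dvd_sub_pow_of_dvd_sub h6 a
        rw [one_pow] at h8
        have h9 : ((p ^ a : ℕ) : ℤ) ∣ ((m ^ p ^ a : ℕ) : ℤ) - ((1 : ℕ) : ℤ) := by
          push_cast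
          exact (pow_dvd_pow _ (Nat.le_succ a)).trans h8
        exact (Nat.modEq_iff_dvd.2 h9).symm
    have hc : (p ^ a).Coprime n' := Nat.Coprime.pow_left a ((Nat.Prime.coprime_iff_not_dvd hp).2 h2)
    have h5 : m ^ p ^ a ≡ 1 [MOD Nat.card G] := by
      rw [h1]
      exact (Nat.modEq_and_modEq_iff_modEq_mul hc).1 ⟨h4, h3⟩
    have h6 : m ^ p ^ a ≡ 1 [MOD orderOf g] := h5.of_dvd (orderOf_dvd_natCard g)
    have h7 := (pow_eq_pow_iff_modEq (x := g)).2 h6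
    rwa [pow_one] at h7

end Pool.Agent.GB
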