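import Pool.Agent.helper58.ZB.SpecN
import Pool.Agent.helper11.DR.CCJ

set_option autoImplicit false

namespace Pool.Agent.GB

open Pool.Agent.helper58.DC Pool.Agent.DI Pool.Agent.GR Pool.Agent.OB Pool.Agent.DR Pool.Agent.FI Pool.Agent.FI3 Pool.Agent.FI4 Pool.Agent.LE Pool.Agent.BR

theorem NTB_sup {Λ : Type} [Group Λ] [Finite Λ] (C D Z : Subgroup Λ) [C.Normal] (h : D ≤ Z) :
    (D ⊔ C).relIndex (Z ⊔ C) ∣ D.relIndex Z := by
  have h1 : C.relIndex (D ⊔ C) * (D ⊔ C).relIndex (Z ⊔ C) = C.relIndex (Z ⊔ C) :=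
    Subgroup.relIndex_mul_relIndex C (D ⊔ C) (Z ⊔ C) le_sup_right (sup_le_sup_right h C)
  rw [Subgroup.relIndex_sup_right, Subgroup.relIndex_sup_right] at h1
  have h2 : (C ⊓ D).relIndex D * D.relIndex Z = (C ⊓ D).relIndex Z :=
    Subgroup.relIndex_mul_relIndex (C ⊓ D) D Z inf_le_right h
  have h3 : (C ⊓ D).relIndex (C ⊓ Z) * (C ⊓ Z).relIndex Z = (C ⊓ D).relIndex Z :=
    Subgroup.relIndex_mul_relIndex (C ⊓ D) (C ⊓ Z) Z (inf_le_inf_left C h) inf_le_right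
  rw [Subgroup.inf_relIndex_right] at h2 h3
  have h0 : C.relIndex D ≠ 0 := Subgroup.index_ne_zero_of_finite (H := C.subgroupOf D)
  refine ⟨(C ⊓ D).relIndex (C ⊓ Z), ?_⟩
  apply Nat.eq_of_mul_eq_mul_left (Nat.pos_of_ne_zero h0)
  rw [h2, ← h3, ← h1]
  ring

theorem NTB_sup' {G : Type} [Group G] [Finite G] (L C D Z : Subgroup G) (hC : ∀ g ∈ L, ∀ c ∈ C, g * c * g⁻¹ ∈ C) (hCL : C ≤ L)
    (hZL : Z ≤ L) (h : D ≤ Z) : (D ⊔ C).relIndex (Z ⊔ C) ∣ D.relIndex Z := by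
  have hn : (C.subgroupOf L).Normal := ⟨fun n hn g => hC g g.2 n hn⟩
  have h1 := NTB_sup (C.subgroupOf L) (D.subgroupOf L) (Z.subgroupOf L) (fun x hx => h hx)
  rw [← Subgroup.subgroupOf_sup (h.trans hZL) hCL, ← Subgroup.subgroupOf_sup hZL hCL,
    Subgroup.relIndex_subgroupOf (sup_le hZL hCL), Subgroup.relIndex_subgroupOf hZL] at h1
  exact h1

theorem NTB_index {p : ℕ} (hp : p.Prime) {G : Type} [Group G] [Finite G] {D C : Subgroup G}
    (hDC : D ≤ C) (h : Nat.card D = pp p C) : ¬ p ∣ D.relIndex C := by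
  intro hd
  have hC0 : Nat.card C ≠ 0 := Nat.card_pos.ne'
  have h1 : Nat.card D * D.relIndex C = Nat.card C := by
    have h2 := Subgroup.relIndex_mul_relIndex (⊥ : Subgroup G) D C bot_le hDC
    rw [Subgroup.relIndex_bot_left, Subgroup.relIndex_bot_left] at h2
    exact h2
  obtain ⟨k, hk⟩ := hd
  have hF : Fact p.Prime := ⟨hp⟩
  have h3 : p ^ (padicValNat p (Nat.card C) + 1) ∣ Nat.card C := by
    refine ⟨k, ?_⟩
    calc Nat.card C = Nat.card D * D.relIndex C := h1.symm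
      _ = pp p C * (p * k) := by rw [h, hk]
      _ = p ^ (padicValNat p (Nat.card C) + 1) * k := by
          unfold pp
          rw [pow_succ]
          ring
  have h4 := (padicValNat_dvd_iff_le hC0).1 h3
  omega

theorem NTB_cls {G : Type} [Group G] (D : Subgroup G) (t y : G) (ht : t ∈ nz D) :
    (fun x => cls (cz D) (t * y * t⁻¹) (t * x * t⁻¹)) = cls (cz D) y := by
  funext x
  unfold cls
  have h : (∃ l ∈ cz D, l * (t * y * t⁻¹) * l⁻¹ = t * x * t⁻¹) ↔ ∃ l ∈ cz D, l * y * l⁻¹ = x := by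
    constructor
    · rintro ⟨l, hl, e⟩
      refine ⟨t⁻¹ * l * t⁻¹⁻¹, cz_conj ((nz D).inv_mem ht) hl, ?_⟩
      have h1 : t⁻¹ * l * t⁻¹⁻¹ * y * (t⁻¹ * l * t⁻¹⁻¹)⁻¹ = t⁻¹ * (l * (t * y * t⁻¹) * l⁻¹) * t := by group
      rw [h1, e]
      group
    · rintro ⟨l, hl, rfl⟩
      exact ⟨t * l * t⁻¹, cz_conj ht hl, by group⟩
  by_cases hc : ∃ l ∈ cz D, l * y * l⁻¹ = x
  · rw [if_pos hc, if_pos (h.2 hc)]
  · rw [if_neg hc, if_neg (fun h' => hc (h.1 h'))]

theorem NTB_fun {G : Type} [Group G] (D : Subgroup G) (t y : G) (ht : t ∈ nz D) :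
    funMap (MulAut.conj t) (cls (cz D) y) = cls (cz D) (t * y * t⁻¹) := by
  funext g
  have h1 := congrFun (NTB_cls D t y ht) (t⁻¹ * g * t)
  have h2 : t * (t⁻¹ * g * t) * t⁻¹ = g := by group
  simp only [h2] at h1
  unfold funMap
  rw [MulAut.conj_inv_apply]
  exact h1.symm

theorem NTB_cong (hCLS : CLS_stmt) {G : Type} [Group G] [Finite G] {M : Ideal (integralClosure ℤ ℂ)} {D : Subgroup G} {θ : G → ℂ} {t : G}
    (ht : t ∈ TT M D θ) {x' : G} (hx' : x' ∈ cz D) : Mcong M (cc θ (cls (cz D) x')) (cc θ (cls (cz D) (t * x' * t⁻¹))) := by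
  obtain ⟨h1, h2⟩ := ht
  have h3 := h2 (cls (cz D) (t * x' * t⁻¹)) ((hCLS G (cz D) _).2.1 (cz_conj h1 hx')) (hCLS G (cz D) _).2.2.1
  rwa [cc_funMap, NTB_cls D t x' h1] at h3

open Classical in
theorem NTB_sum (hCLS : CLS_stmt) {G : Type} [Group G] [Fintype G] (C L : Subgroup G) (hCL : C ≤ L) (θ : G → ℂ) (x' : G) :
    cc θ (cls L x') = ∑ f ∈ (Finset.univ.filter fun y => ∃ l ∈ L, l * x' * l⁻¹ = y).image (cls C), cc θ f := by
  have hsum : ∀ (H : Subgroup G) (y : G), ∑ᶠ x, cls H y x * θ x = ∑ x ∈ Finset.univ.filter (fun x => ∃ l ∈ H, l * y * l⁻¹ = x), θ x := by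
    intro H y
    rw [finsum_eq_sum_of_fintype, Finset.sum_filter]
    refine Finset.sum_congr rfl fun x _ => ?_
    by_cases hx : ∃ l ∈ H, l * y * l⁻¹ = x
    · rw [if_pos hx, ((hCLS G H y).2.2.2.1 x).2 hx, one_mul]
    · rw [if_neg hx]
      rcases (hCLS G H y).2.2.2.2.1 x with h0 | h1
      · rw [h0, zero_mul]
      · exact absurd (((hCLS G H y).2.2.2.1 x).1 h1) hx
  have h1 : ∀ f ∈ (Finset.univ.filter fun y => ∃ l ∈ L, l * x' * l⁻¹ = y).image (cls C),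
      cc θ f = (∑ y ∈ (Finset.univ.filter fun y => ∃ l ∈ L, l * x' * l⁻¹ = y).filter (fun y => cls C y = f), θ y) / θ 1 := by
    intro f hf
    obtain ⟨y0, hy0, rfl⟩ := Finset.mem_image.1 hf
    obtain ⟨l0, hl0, e0⟩ := (Finset.mem_filter.1 hy0).2
    unfold cc
    rw [hsum]
    congr 1
    refine Finset.sum_congr ?_ fun _ _ => rfl
    ext x
    rw [Finset.mem_filter, Finset.mem_filter, Finset.mem_filter]
    constructor
    · rintro ⟨-, l, hl, rfl⟩
      refine ⟨⟨Finset.mem_univ _, l * l0, L.mul_mem (hCL hl) hl0, ?_⟩, ?_⟩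
      · rw [← e0]
        group
      · exact (hCLS G C y0).2.2.2.2.2.1 l hl
    · rintro ⟨-, hx⟩
      refine ⟨Finset.mem_univ _, ?_⟩
      have h2 : cls C x x = 1 := ((hCLS G C x).2.2.2.1 x).2 ⟨1, C.one_mem, by group⟩
      rw [hx] at h2
      exact ((hCLS G C y0).2.2.2.1 x).1 h2
  rw [Finset.sum_congr rfl h1, ← Finset.sum_div]
  unfold cc
  rw [hsum, Finset.sum_fiberwise_of_maps_to (fun y hy => Finset.mem_image_of_mem (cls C) hy)]

theorem NTB_prime (hCLS : CLS_stmt) {p : ℕ} {M : Ideal (integralClosure ℤ ℂ)} (hS : Setup p M) {G : Type} [Group G] [Finite G] (D : Subgroup G)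
    (θ : G → ℂ) (hθ : θ ∈ IrrOn (cz D)) (hC : cz D ≤ TT M D θ) (x' : G) (hx' : x' ∈ cz D) (hne : ¬ InM M (cc θ (cls (TT M D θ) x'))) :
    ¬ p ∣ (stF (TT M D θ) (cls (cz D) x')).relIndex (TT M D θ) := by
  classical
  cases nonempty_fintype G
  set F : Finset (G → ℂ) := (Finset.univ.filter fun y => ∃ l ∈ TT M D θ, l * x' * l⁻¹ = y).image (cls (cz D)) with hF
  have hmem : ∀ f, f ∈ F ↔ ∃ t ∈ TT M D θ, f = funMap (MulAut.conj t) (cls (cz D) x') := by
    intro f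
    constructor
    · intro hf
      obtain ⟨y, hy, rfl⟩ := Finset.mem_image.1 hf
      obtain ⟨l, hl, rfl⟩ := (Finset.mem_filter.1 hy).2
      exact ⟨l, hl, (NTB_fun D l x' hl.1).symm⟩
    · rintro ⟨t, ht, rfl⟩
      rw [NTB_fun D t x' ht.1]
      exact Finset.mem_image_of_mem _ (Finset.mem_filter.2 ⟨Finset.mem_univ _, t, ht, rfl⟩)
  have hcard : Nat.card {f : G → ℂ // ∃ n ∈ TT M D θ, f = funMap (MulAut.conj n) (cls (cz D) x')} = F.card :=
    Nat.subtype_card F hmem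
  have hle : stF (TT M D θ) (cls (cz D) x') ≤ TT M D θ := fun n hn => hn.1
  have h1 := CCJ_card (cls (cz D) x') (TT M D θ)
  rw [hcard] at h1
  have h2 : Nat.card (stF (TT M D θ) (cls (cz D) x')) * (stF (TT M D θ) (cls (cz D) x')).relIndex (TT M D θ) = Nat.card (TT M D θ) := by
    have h3 := Subgroup.relIndex_mul_relIndex (⊥ : Subgroup G) _ _ bot_le hle
    rw [Subgroup.relIndex_bot_left, Subgroup.relIndex_bot_left] at h3
    exact h3
  have h4 : (stF (TT M D θ) (cls (cz D) x')).relIndex (TT M D θ) = F.card := by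
    apply Nat.eq_of_mul_eq_mul_left (Nat.card_pos (α := stF (TT M D θ) (cls (cz D) x')))
    rw [h2, ← h1, mul_comm]
  rw [h4]
  intro hdvd
  apply hne
  rw [NTB_sum hCLS (cz D) (TT M D θ) hC θ x']
  have hint : IsIntegral ℤ (cc θ (cls (cz D) x')) := (hCLS G (cz D) x').2.2.2.2.2.2.2.2 (cz D) le_rfl θ hθ
  have h5 : ∀ f ∈ F, InM M (cc θ f - cc θ (cls (cz D) x')) := by
    intro f hf
    obtain ⟨t, ht, rfl⟩ := (hmem f).1 hf
    rw [NTB_fun D t x' ht.1]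
    have h6 := InM.of_mcong hS (NTB_cong hCLS ht hx')
    have h7 := InM.neg h6
    rwa [neg_sub] at h7
  have h8 : ∑ f ∈ F, cc θ f = ∑ f ∈ F, (cc θ f - cc θ (cls (cz D) x')) + (F.card : ℂ) * cc θ (cls (cz D) x') := by
    rw [Finset.sum_sub_distrib, Finset.sum_const, nsmul_eq_mul, sub_add_cancel]
  have h9 : InM M (∑ f ∈ F, cc θ f) := by
    rw [h8]
    exact InM.add hS (InM.sum hS F h5) (InM.mul_right hS ((InM.natCast hS _).2 hdvd) (IntAt.of_isIntegral hS hint))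
  exact h9

theorem NTB (hDFZ : DFZ_stmt) (hEXB : EXB_stmt) (hSBI : SBI_stmt) (hCLS : CLS_stmt) : NTB_stmt := by
  intro p M hS G _ _ D x θ χ hR
  have hDT : D ≤ TT M D θ := by
    intro d hd
    have hdn : d ∈ nz D := Subgroup.le_normalizer hd
    refine ⟨hdn, ?_⟩
    have h1 : funMap (MulAut.conj d) θ = θ := by
      funext g
      unfold funMap
      rw [MulAut.conj_inv_apply]
      by_cases hg : g ∈ cz D
      · have h2 := Subgroup.mem_centralizer_iff.1 hg d hd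
        have h3 : d⁻¹ * g * d = g := by
          rw [mul_assoc, ← h2, ← mul_assoc, inv_mul_cancel, one_mul]
        rw [h3]
      · have h3 : d⁻¹ * g * d ∉ cz D := by
          intro h4
          apply hg
          have h5 := cz_conj hdn h4
          have h6 : d * (d⁻¹ * g * d) * d⁻¹ = g := by group
          rwa [h6] at h5
        rw [hR.th.1 g hg, hR.th.1 _ h3]
    rw [h1]
    exact SB.refl _ _
  refine ⟨hDT, ?_⟩
  have hCT : cz D ≤ TT M D θ := cz_le_TT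
  have hinf : TT M D θ ⊓ cz D = cz D := inf_eq_right.2 hCT
  obtain ⟨ψ, hψ, hSB⟩ := hEXB p M hS G (TT M D θ) D hR.dfa.pgrp hDT θ (by rw [hinf]; exact hR.th)
  obtain ⟨x', hx', -, hD⟩ := hDFZ p M hS G D x θ χ hR (TT M D θ) hDT hCT ψ hψ hSB
  have hne : ¬ InM M (cc θ (cls (TT M D θ) x')) := by
    rw [(hSBI p M hS G (TT M D θ) θ ψ hSB).2 x' (hCT hx')]
    exact hD.ne
  have hpr := NTB_prime hCLS hS D θ hR.th hCT x' hx' hne
  have hZL : Cz (TT M D θ) x' ≤ TT M D θ := inf_le_left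
  have hst : stF (TT M D θ) (cls (cz D) x') ≤ Cz (TT M D θ) x' ⊔ cz D := by
    rintro n ⟨hn, hn2⟩
    rw [NTB_fun D n x' hn.1] at hn2
    have h1 : cls (cz D) (n * x' * n⁻¹) (n * x' * n⁻¹) = 1 :=
      ((hCLS G (cz D) (n * x' * n⁻¹)).2.2.2.1 (n * x' * n⁻¹)).2 ⟨1, (cz D).one_mem, by group⟩
    rw [hn2] at h1
    obtain ⟨c, hc, e⟩ := ((hCLS G (cz D) x').2.2.2.1 (n * x' * n⁻¹)).1 h1
    have h2 : c⁻¹ * n ∈ Cz (TT M D θ) x' := by
      refine Subgroup.mem_inf.2 ⟨(TT M D θ).mul_mem ((TT M D θ).inv_mem (hCT hc)) hn, ?_⟩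
      rw [Subgroup.mem_centralizer_iff]
      intro y hy
      rw [Set.mem_singleton_iff.1 hy]
      have h3 : x' * (c⁻¹ * n) = c⁻¹ * (c * x' * c⁻¹) * n := by group
      rw [h3, e]
      group
    have h4 : n = c * (c⁻¹ * n) := by group
    rw [h4]
    exact Subgroup.mul_mem _ (Subgroup.mem_sup_right hc) (Subgroup.mem_sup_left h2)
  have hDZ : D ≤ Cz (TT M D θ) x' := hD.le
  have hm := Subgroup.relIndex_mul_relIndex (D ⊔ cz D) (Cz (TT M D θ) x' ⊔ cz D) (TT M D θ) (sup_le_sup_right hDZ _) (sup_le hZL hCT)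
  rw [← hm]
  intro hdvd
  rcases (Nat.Prime.dvd_mul hS.pr).1 hdvd with h1 | h1
  · exact NTB_index hS.pr hDZ hD.card (h1.trans (NTB_sup' (TT M D θ) (cz D) D (Cz (TT M D θ) x') (fun g hg c hc => cz_conj hg.1 hc) hCT hZL hDZ))
  · exact hpr (h1.trans (Subgroup.relIndex_dvd_of_le_left _ hst))

end Pool.Agent.GB
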