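import Pool.Agent.helper7.ZB.SpecT

set_option autoImplicit false

namespace Pool.Agent.ZB

open Pool.Agent.helper58.DC Pool.Agent.DI Pool.Agent.GR Pool.Agent.OB Pool.Agent.DR Pool.Agent.FI Pool.Agent.FI3 Pool.Agent.FI4 Pool.Agent.FI4I Pool.Agent.LE Pool.Agent.L5 Pool.Agent.NAB

theorem ZDB_index {p : ℕ} (hp : p.Prime) {G : Type} [Group G] [Finite G] {D C : Subgroup G}
    (hDC : D ≤ C) (h : Nat.card D = pp p C) : ¬ p ∣ D.relIndex C := by
  intro hd
  have hC0 : Nat.card C ≠ 0 := Nat.card_pos.ne'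
  have h1 : Nat.card D * D.relIndex C = Nat.card C := by
    have h2 := Subgroup.relIndex_mul_relIndex (⊥ : Subgroup G) D C bot_le hDC
    rw [Subgroup.relIndex_bot_left, Subgroup.relIndex_bot_left] at h2
    exact h2
  obtain ⟨k, hk⟩ := hd
  have hF : Fact p.Prime := ⟨hp⟩
  have h3 : p ^ (padicValNat p (Nat.card C) + 1) ∣ Nat.card C := by
    refine ⟨k, ?_⟩
    calc Nat.card C = Nat.card D * D.relIndex C := h1.symm
      _ = pp p C * (p * k) := by rw [h, hk]
      _ = p ^ (padicValNat p (Nat.card C) + 1) * k := by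
          unfold pp
          rw [pow_succ]
          ring
  have h4 := (padicValNat_dvd_iff_le hC0).1 h3
  omega

theorem ZDB_syl {p : ℕ} (hp : p.Prime) {G : Type} [Group G] [Finite G] (C : Subgroup G) :
    ∃ Q : Subgroup G, Q ≤ C ∧ IsPGroup p Q ∧ Nat.card Q = pp p C := by
  have hF : Fact p.Prime := ⟨hp⟩
  obtain ⟨P⟩ : Nonempty (Sylow p C) := inferInstance
  refine ⟨(P : Subgroup C).map C.subtype, ?_, ?_, ?_⟩
  · rintro _ ⟨y, -, rfl⟩
    exact y.2
  · exact P.2.map C.subtype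
  · rw [Nat.card_congr ((P : Subgroup C).equivMapOfInjective C.subtype C.subtype_injective).symm.toEquiv]
    have h := Sylow.card_eq_multiplicity P
    rw [Nat.factorization_def _ hp] at h
    exact h

theorem ZDB (hDEX : DEX_stmt) (hNUC : NUC_stmt) (hNDX : NDX_stmt) (hTPR : Pool.Agent.FI.TPR_stmt)
    (hCLS : CLS_stmt) : ZDB_stmt := by
  intro p e a M hS hae G _ _ hOp χ hχ z x hU
  have hpr : p.Prime := hS.pr
  obtain ⟨hT1, -, -, -, hT5⟩ := hTPR p M hS G
  have hχ' : χ ∈ IrrOn (⊤ : Subgroup G) := by rw [hT1]; exact hχ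
  obtain ⟨D, y, hD, -⟩ := hDEX p M hS G ⊤ χ hχ'
  obtain ⟨-, l, -, hzD, hzc⟩ := hNUC p M hS G ⊤ χ hχ' D y hD z x hU.pe hU.re hU.co (Subgroup.mem_top _) hU.ne
  have hom : ∀ y : G, omega χ y = cc χ (cls ⊤ y) := fun y => (hCLS G ⊤ y).2.2.2.2.2.2.2.1 χ
  have hint : ∀ y : G, IsIntegral ℤ (cc χ (cls ⊤ y)) := fun y =>
    (hCLS G ⊤ y).2.2.2.2.2.2.2.2 ⊤ le_rfl χ hχ'
  have hcard : Nat.card D = pp p (Subgroup.centralizer ({y} : Set G)) := by
    have h := hD.card
    rwa [hT5] at h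
  have hle : D ≤ Subgroup.centralizer {y} := by
    have h := hD.le
    rwa [hT5] at h
  have hmin : ∀ w : G, ¬ InM M (cc χ (cls ⊤ w)) → Nat.card D ≤ pp p (Subgroup.centralizer ({w} : Set G)) := by
    intro w hw
    have h := hD.min w (Subgroup.mem_top _) hw
    rwa [hT5] at h
  have hnv : ∀ w : G, Pool.Agent.MAP.NonVan M χ w ↔ ¬ InM M (cc χ (cls ⊤ w)) := by
    intro w
    constructor
    · intro h h1
      have h2 : InM M (((⟨cc χ (cls ⊤ w), hint w⟩ : integralClosure ℤ ℂ)) : ℂ) := h1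
      exact h _ (InM.mem hS h2) (hom w)
    · intro h a ha h1
      apply h
      rw [← hom, h1]
      exact InM.coe hS ha
  have hDG : Pool.Agent.MAP.DefectGroup p M χ D := by
    refine ⟨y, hD.reg, (hnv _).2 hD.ne, hle, hD.pg, ZDB_index hpr hle hcard, ?_⟩
    intro w hw
    obtain ⟨Q, hQ1, hQ2, hQ3⟩ := ZDB_syl hpr (Subgroup.centralizer ({w} : Set G))
    exact ⟨Q, hQ1, hQ2, by rw [hQ3]; exact hmin w ((hnv w).1 hw)⟩
  have hCO : Pool.Agent.MAPW.CentreOut p (e - a) D := by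
    refine ⟨by omega, l * z * l⁻¹, hzD, fun d hd => hzc d hd, fun hin => ?_⟩
    have h1 := hU.cx D y hD _ hin
    rw [← pow_mul, ← pow_add, conj_pow] at h1
    have h2 : e - a - 1 + a = e - 1 := by omega
    rw [h2] at h1
    have h3 : z ^ p ^ (e - 1) = 1 := by
      have h4 : l⁻¹ * (l * z ^ p ^ (e - 1) * l⁻¹) * l = 1 := by rw [h1]; group
      have h5 : l⁻¹ * (l * z ^ p ^ (e - 1) * l⁻¹) * l = z ^ p ^ (e - 1) := by group
      rw [h5] at h4
      exact h4
    have h6 := orderOf_dvd_of_pow_eq_one h3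
    rw [hU.od] at h6
    have h7 := (Nat.pow_dvd_pow_iff_le_right hpr.one_lt).1 h6
    omega
  exact hNDX p M hS G hOp χ hχ D hDG (e - a) hCO

end Pool.Agent.ZB
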